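import Mathlib
import Pool.Agent.H744R2.KZ.Props

/-!
Task `N_tr` of helper744's table: the trace on the coefficient algebra of a matrix algebra.
-/

open scoped ComplexOrder InnerProductSpace ComplexConjugate Topology
open Finset Filter

noncomputable section

namespace H744R2.KZ

open H759R2.Kad

universe u

namespace NTraux

variable {E : Type u} [CStarAlgebra E] {k : ℕ}

/-- The scalar matrix with entries `x` on the diagonal. -/
def dm (k : ℕ) (x : E) : CStarMatrix (Fin k) (Fin k) E :=
  CStarMatrix.ofMatrix (Matrix.diagonal fun _ => x)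

theorem dm_apply (x : E) (i j : Fin k) : dm k x i j = if i = j then x else 0 := by
  show Matrix.diagonal (fun _ => x) i j = _
  rw [Matrix.diagonal_apply]

theorem dm_mul (x y : E) : dm k (x * y) = dm k x * dm k y := by
  ext i j
  rw [CStarMatrix.mul_apply, dm_apply, Finset.sum_eq_single i]
  · rw [dm_apply, dm_apply]
    by_cases h : i = j <;> simp [h]
  · intro l _ hl
    rw [dm_apply, if_neg (Ne.symm hl), zero_mul]
  · simp

theorem dm_star (x : E) : dm k (star x) = star (dm k x) := by
  ext i j
  rw [CStarMatrix.star_apply, dm_apply, dm_apply]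
  by_cases h : i = j
  · subst h; simp
  · rw [if_neg h, if_neg (Ne.symm h), star_zero]

theorem dm_one : dm k (1 : E) = 1 := by
  ext i j
  rw [dm_apply, CStarMatrix.one_apply]

theorem dm_add (x y : E) : dm k (x + y) = dm k x + dm k y := by
  ext i j
  rw [CStarMatrix.add_apply, dm_apply, dm_apply, dm_apply]
  by_cases h : i = j <;> simp [h]

theorem dm_smul (c : ℂ) (x : E) : dm k (c • x) = c • dm k x := by
  ext i j
  rw [CStarMatrix.smul_apply, dm_apply, dm_apply]
  by_cases h : i = j <;> simp [h]

/-- The linear map `x ↦ diag (x, …, x)`. -/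
def dl (k : ℕ) : E →ₗ[ℂ] CStarMatrix (Fin k) (Fin k) E where
  toFun := dm k
  map_add' := dm_add
  map_smul' := dm_smul

end NTraux

open NTraux in
theorem prove_N_tr : N_tr.{u} := by
  intro B E _ _ k _ τ hτ hφ
  obtain ⟨φ⟩ := hφ
  refine ⟨τ ∘ₗ (φ.symm : CStarMatrix (Fin k) (Fin k) E →ₗ[ℂ] B) ∘ₗ dl k, ?_, ?_, ?_⟩
  · show τ (φ.symm (dm k 1)) = 1
    rw [dm_one, map_one, hτ.one]
  · intro a
    show 0 ≤ τ (φ.symm (dm k (star a * a)))
    rw [dm_mul, dm_star, map_mul φ.symm, map_star]
    exact hτ.pos _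
  · intro a b
    show τ (φ.symm (dm k (a * b))) = τ (φ.symm (dm k (b * a)))
    rw [dm_mul, dm_mul, map_mul φ.symm, map_mul φ.symm]
    exact hτ.comm _ _

end H744R2.KZ
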