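import Mathlib
import Pool.Agent.H744R2.KZ.Props

/-!
Task `Y_inf` of helper744's table: infinite fibres have no tracial state.
-/

open scoped ComplexOrder InnerProductSpace ComplexConjugate Topology
open Finset Filter

noncomputable section

namespace H744R2.KZ

open H759R2.Kad

universe u

theorem prove_Y_inf : Y_inf.{u} := by
  intro H _ _ _ M z B _ p hF hI
  rintro ⟨τ, hτ⟩
  obtain ⟨s, hs, t, ht, h1, h2, h3⟩ := hI
  set S : M.toStarSubalgebra := ⟨s, hs⟩ with hS
  set T : M.toStarSubalgebra := ⟨t, ht⟩ with hT
  set Z : M.toStarSubalgebra := ⟨z, hF.cp.2.1⟩ with hZ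
  have e1 : star S * S = Z := Subtype.ext h1
  have e2 : star T * T = Z := Subtype.ext h2
  have e3 : S * star S + T * star T = Z := Subtype.ext h3
  have f1 : star (p S) * p S = 1 := by
    rw [← map_star, ← map_mul, e1]; exact hF.one
  have f2 : star (p T) * p T = 1 := by
    rw [← map_star, ← map_mul, e2]; exact hF.one
  have f3 : p S * star (p S) + p T * star (p T) = 1 := by
    rw [← map_star, ← map_mul, ← map_star, ← map_mul, ← map_add, e3]; exact hF.one
  have g : τ (p S * star (p S) + p T * star (p T)) = 1 := by rw [f3]; exact hτ.one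
  rw [map_add, hτ.comm (p S), hτ.comm (p T), f1, f2, hτ.one] at g
  norm_num at g

end H744R2.KZ
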